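import Pool.Agent.H73.TS.Targets

/-! HO: weighted superadditivity of geometric means (helper67) -/

namespace Pool.Agent.H67.TS
open Pool.Agent.H73.TS

theorem ho : T_HO := by
  intro p q t a₀ a₁ b₀ b₁ hp hq hpq ht0 ht1 ha0 ha1 hb0 hb1
  obtain ⟨s, hs⟩ : ∃ s, s = p + q := ⟨_, rfl⟩
  rw [← hs] at hpq ⊢
  obtain ⟨A, hA⟩ : ∃ A, A = (1 - t) * a₀ + t * a₁ := ⟨_, rfl⟩
  obtain ⟨B, hB⟩ : ∃ B, B = (1 - t) * b₀ + t * b₁ := ⟨_, rfl⟩
  rw [← hA, ← hB]
  have hAp : 0 < A := by
    rw [hA]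
    rcases ht0.eq_or_lt with h | h
    · rw [← h]; linarith
    · have := mul_pos h ha1
      have := mul_nonneg (sub_nonneg.2 ht1) ha0.le
      linarith
  have hBp : 0 < B := by
    rw [hB]
    rcases ht0.eq_or_lt with h | h
    · rw [← h]; linarith
    · have := mul_pos h hb1
      have := mul_nonneg (sub_nonneg.2 ht1) hb0.le
      linarith
  have hth : 0 ≤ p / s := by positivity
  have hth' : 0 ≤ q / s := by positivity
  have hsum : p / s + q / s = 1 := by rw [← add_div, ← hs, div_self hpq.ne']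
  have hpow : ∀ a b : ℝ, 0 < a → 0 < b →
      (a ^ p * b ^ q) ^ (1 / s) = a ^ (p / s) * b ^ (q / s) := by
    intro a b ha hb
    rw [Real.mul_rpow (by positivity) (by positivity), ← Real.rpow_mul ha.le,
      ← Real.rpow_mul hb.le, mul_one_div, mul_one_div]
  have hD : 0 < A ^ (p / s) * B ^ (q / s) := by positivity
  have hkey : ∀ a b : ℝ, 0 < a → 0 < b → a ^ (p / s) * b ^ (q / s) ≤
      (A ^ (p / s) * B ^ (q / s)) * (p / s * (a / A) + q / s * (b / B)) := by
    intro a b ha hb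
    have h1 := Real.geom_mean_le_arith_mean2_weighted hth hth' (div_pos ha hAp).le
      (div_pos hb hBp).le hsum
    have h2 : a ^ (p / s) * b ^ (q / s) =
        (A ^ (p / s) * B ^ (q / s)) * ((a / A) ^ (p / s) * (b / B) ^ (q / s)) := by
      rw [Real.div_rpow ha.le hAp.le, Real.div_rpow hb.le hBp.le]
      field_simp
    rw [h2]
    exact mul_le_mul_of_nonneg_left h1 hD.le
  rw [hpow a₀ b₀ ha0 hb0, hpow a₁ b₁ ha1 hb1]
  have h3 : (1 - t) * (a₀ ^ (p / s) * b₀ ^ (q / s)) + t * (a₁ ^ (p / s) * b₁ ^ (q / s)) ≤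
      A ^ (p / s) * B ^ (q / s) := by
    have h4 := mul_le_mul_of_nonneg_left (hkey a₀ b₀ ha0 hb0) (sub_nonneg.2 ht1)
    have h5 := mul_le_mul_of_nonneg_left (hkey a₁ b₁ ha1 hb1) ht0
    have h6 : (1 - t) * ((A ^ (p / s) * B ^ (q / s)) * (p / s * (a₀ / A) + q / s * (b₀ / B))) +
        t * ((A ^ (p / s) * B ^ (q / s)) * (p / s * (a₁ / A) + q / s * (b₁ / B))) =
        A ^ (p / s) * B ^ (q / s) := by
      have h7 : (1 - t) * (p / s * (a₀ / A) + q / s * (b₀ / B)) +
          t * (p / s * (a₁ / A) + q / s * (b₁ / B)) = 1 := by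
        have h8 : (1 - t) * (a₀ / A) + t * (a₁ / A) = 1 := by
          rw [mul_div_assoc', mul_div_assoc', ← add_div, ← hA, div_self hAp.ne']
        have h9 : (1 - t) * (b₀ / B) + t * (b₁ / B) = 1 := by
          rw [mul_div_assoc', mul_div_assoc', ← add_div, ← hB, div_self hBp.ne']
        linear_combination (p / s) * h8 + (q / s) * h9 + hsum
      linear_combination (A ^ (p / s) * B ^ (q / s)) * h7
    linarith
  have h0 : 0 ≤ (1 - t) * (a₀ ^ (p / s) * b₀ ^ (q / s)) + t * (a₁ ^ (p / s) * b₁ ^ (q / s)) := by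
    have := sub_nonneg.2 ht1
    positivity
  refine (Real.rpow_le_rpow h0 h3 hpq.le).trans (le_of_eq ?_)
  rw [Real.mul_rpow (by positivity) (by positivity), ← Real.rpow_mul hAp.le,
    ← Real.rpow_mul hBp.le, div_mul_cancel₀ _ hpq.ne', div_mul_cancel₀ _ hpq.ne']

end Pool.Agent.H67.TS
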