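import Pool.Agent.H73.TS.Targets

/-! ND: the one variable inequality (helper67) -/

namespace Pool.Agent.H67.TS
open Pool.Agent.H73.TS MeasureTheory

private theorem nd_deriv (x : ℝ) :
    HasDerivAt (fun x : ℝ => x * (16 - x) ^ 15) ((16 - x) ^ 14 * (16 - 16 * x)) x := by
  have h1 : HasDerivAt (fun x : ℝ => 16 - x) (-1) x := by
    simpa using (hasDerivAt_id x).const_sub (16 : ℝ)
  have h3 : HasDerivAt (fun x : ℝ => (16 - x) ^ 15) (15 * (16 - x) ^ 14 * (-1)) x := by
    simpa using h1.fun_pow 15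
  have h2 : HasDerivAt (fun x : ℝ => x * (16 - x) ^ 15)
      (1 * (16 - x) ^ 15 + x * (15 * (16 - x) ^ 14 * (-1))) x := (hasDerivAt_id' x).fun_mul h3
  refine h2.congr_deriv ?_
  ring

private theorem nd_mono : StrictMonoOn (fun x : ℝ => x * (16 - x) ^ 15) (Set.Icc 0 1) := by
  refine strictMonoOn_of_deriv_pos (convex_Icc 0 1) (by fun_prop) fun x hx => ?_
  rw [interior_Icc] at hx
  rw [(nd_deriv x).deriv]
  have h1 : 0 < 16 - x := by linarith [hx.2]
  have h2 : 0 < 16 - 16 * x := by linarith [hx.2]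
  positivity

private theorem nd_anti : StrictAntiOn (fun x : ℝ => x * (16 - x) ^ 15) (Set.Icc 1 16) := by
  refine strictAntiOn_of_deriv_neg (convex_Icc 1 16) (by fun_prop) fun x hx => ?_
  rw [interior_Icc] at hx
  rw [(nd_deriv x).deriv]
  have h1 : 0 < 16 - x := by linarith [hx.2]
  have h2 : 16 - 16 * x < 0 := by linarith [hx.1]
  exact mul_neg_of_pos_of_neg (by positivity) h2

private theorem nd_root (w : ℝ) (hw : 0 < w) : (w ^ ((1 : ℝ) / 15)) ^ (15 : ℕ) = w := by
  rw [← Real.rpow_natCast, ← Real.rpow_mul hw.le]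
  norm_num

private theorem nd_int (u v : ℝ) (huv : u < v) :
    16 * (∫ t in (0 : ℝ)..1, ((1 - t) * u + t * v) ^ (15 : ℕ)) * (v - u) = v ^ 16 - u ^ 16 := by
  have hm : 0 < v - u := sub_pos.2 huv
  have h1 : ∀ t : ℝ, HasDerivAt (fun t : ℝ => ((1 - t) * u + t * v) ^ 16 / (16 * (v - u)))
      (((1 - t) * u + t * v) ^ 15) t := by
    intro t
    have h2 : HasDerivAt (fun t : ℝ => (1 - t) * u + t * v) (v - u) t := by
      have h3 : HasDerivAt (fun t : ℝ => 1 - t) (-1) t := by
        simpa using (hasDerivAt_id t).const_sub (1 : ℝ)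
      have h4 := (h3.mul_const u).add ((hasDerivAt_id t).mul_const v)
      refine h4.congr_deriv ?_
      ring
    have h5 := (h2.pow 16).div_const (16 * (v - u))
    refine h5.congr_deriv ?_
    push_cast
    field_simp
  rw [intervalIntegral.integral_eq_sub_of_hasDerivAt (fun t _ => h1 t)
    (by apply Continuous.intervalIntegrable; fun_prop)]
  field_simp
  ring

theorem nd (hDD : T_DD) (hQB : T_QB) : T_ND := by
  obtain ⟨-, hodd, -, -, -, hqf, hqpos, hqmono, hq0⟩ := hQB
  intro w₀ w₁ hw0 hle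
  have hw1 : 0 < w₁ := lt_of_lt_of_le hw0 hle
  rcases hle.eq_or_lt with heq | hlt
  · refine ⟨0, ?_⟩
    rw [← heq]
    have h1 : er 0 = 0 := by unfold er; exact intervalIntegral.integral_same
    have h2 : ∀ t : ℝ, hh w₀ w₀ t = w₀ := by
      intro t
      unfold hh
      have : (1 - t) * w₀ ^ ((1 : ℝ) / 15) + t * w₀ ^ ((1 : ℝ) / 15) = w₀ ^ ((1 : ℝ) / 15) := by
        ring
      rw [this, nd_root w₀ hw0]
    rw [h1]
    simp only [h2]
    simp
    linarith
  · obtain ⟨u, hu⟩ : ∃ u, u = w₀ ^ ((1 : ℝ) / 15) := ⟨_, rfl⟩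
    obtain ⟨v, hv⟩ : ∃ v, v = w₁ ^ ((1 : ℝ) / 15) := ⟨_, rfl⟩
    have hup : 0 < u := by rw [hu]; positivity
    have hu15 : u ^ 15 = w₀ := by rw [hu]; exact nd_root w₀ hw0
    have hv15 : v ^ 15 = w₁ := by rw [hv]; exact nd_root w₁ hw1
    have huv : u < v := by rw [hu, hv]; exact Real.rpow_lt_rpow hw0.le hlt (by norm_num)
    have hvp : 0 < v := hup.trans huv
    obtain ⟨I, hI⟩ : ∃ I, I = ∫ t in (0 : ℝ)..1, hh w₀ w₁ t := ⟨_, rfl⟩
    have hI16 : 16 * I * (v - u) = v ^ 16 - u ^ 16 := by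
      rw [hI]
      unfold hh
      rw [← hu, ← hv]
      exact nd_int u v huv
    -- mean value
    obtain ⟨ξ, hξ, hξ2⟩ := exists_hasDerivAt_eq_slope (fun x : ℝ => x ^ 16)
      (fun x : ℝ => 16 * x ^ 15) huv (by fun_prop)
      (fun x _ => by simpa using hasDerivAt_pow 16 x)
    have hm : 0 < v - u := sub_pos.2 huv
    have hIξ : I = ξ ^ 15 := by
      have h1 : 16 * ξ ^ 15 * (v - u) = v ^ 16 - u ^ 16 := by
        rw [hξ2]; field_simp
      have h2 : (16 * I - 16 * ξ ^ 15) * (v - u) = 0 := by linear_combination hI16 - h1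
      rcases mul_eq_zero.1 h2 with h | h
      · linarith
      · exact absurd h hm.ne'
    have hξp : 0 < ξ := hup.trans hξ.1
    have hI0 : w₀ < I := by
      rw [hIξ, ← hu15]
      exact pow_lt_pow_left₀ hξ.1 hup.le (by norm_num)
    have hI1 : I < w₁ := by
      rw [hIξ, ← hv15]
      exact pow_lt_pow_left₀ hξ.2 hξp.le (by norm_num)
    have hIp : 0 < I := hw0.trans hI0
    have hpi := Real.pi_pos
    obtain ⟨c, hc⟩ : ∃ c, c = (w₁ - w₀) / (2 * Real.pi * I) := ⟨_, rfl⟩
    have hcp : 0 < c := by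
      rw [hc]
      have := sub_pos.2 hlt
      positivity
    obtain ⟨a, ha⟩ : ∃ a, a = w₀ / I := ⟨_, rfl⟩
    obtain ⟨b, hb⟩ : ∃ b, b = w₁ / I := ⟨_, rfl⟩
    have haI : a * I = w₀ := by rw [ha]; field_simp
    have hbI : b * I = w₁ := by rw [hb]; field_simp
    have ha1 : a < 1 := by rw [ha, div_lt_one hIp]; exact hI0
    have hb1 : 1 < b := by rw [hb, one_lt_div hIp]; exact hI1
    have hba : b - a = 2 * Real.pi * c := by
      rw [ha, hb, hc]
      field_simp
    -- main claim
    have hmain : a ≤ qf (-c) := by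
      by_contra hcon
      rw [not_le] at hcon
      have hq := hqf c
      have hbq : qf c < b := by linarith
      have h1 : v * (16 - b) = u * (16 - a) := by
        have h2 : (v * (16 - b) - u * (16 - a)) * I = 0 := by
          have h3 : v ^ 16 = v * (b * I) := by rw [hbI, ← hv15]; ring
          have h4 : u ^ 16 = u * (a * I) := by rw [haI, ← hu15]; ring
          rw [h3, h4] at hI16
          linear_combination hI16
        rcases mul_eq_zero.1 h2 with h | h
        · linarith
        · exact absurd h hIp.ne'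
      have hb16 : b < 16 := by
        have h2 : 0 < v * (16 - b) := by rw [h1]; exact mul_pos hup (by linarith)
        have h3 := (mul_pos_iff_of_pos_left hvp).1 h2
        linarith
      have h5 : b * (16 - b) ^ 15 = a * (16 - a) ^ 15 := by
        have h6 : (v * (16 - b)) ^ 15 = (u * (16 - a)) ^ 15 := by rw [h1]
        rw [mul_pow, mul_pow, hv15, hu15, ← haI, ← hbI] at h6
        have h7 : (b * (16 - b) ^ 15 - a * (16 - a) ^ 15) * I = 0 := by linear_combination h6
        rcases mul_eq_zero.1 h7 with h | h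
        · linarith
        · exact absurd h hIp.ne'
      have hqm1 : qf (-c) < 1 := by
        rw [← hq0]
        exact hqmono (by linarith)
      have hqp1 : 1 < qf c := by
        rw [← hq0]
        exact hqmono hcp
      have hqm0 := hqpos (-c)
      have h8 : qf (-c) * (16 - qf (-c)) ^ 15 < a * (16 - a) ^ 15 :=
        nd_mono ⟨hqm0.le, hqm1.le⟩ ⟨by linarith, ha1.le⟩ hcon
      have h9 : b * (16 - b) ^ 15 < qf c * (16 - qf c) ^ 15 :=
        nd_anti ⟨hqp1.le, by linarith⟩ ⟨hb1.le, hb16.le⟩ hbq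
      have h10 := hDD c hcp.le (by linarith)
      linarith
    refine ⟨c, ?_⟩
    rw [← hI]
    have h11 : qf c + qf (-c) = 2 * (Real.exp (-(Real.pi * c ^ 2)) + 2 * Real.pi * c * er c) := by
      unfold qf
      rw [hodd c, neg_sq]
      ring
    have h12 : a + b ≤ 2 * (Real.exp (-(Real.pi * c ^ 2)) + 2 * Real.pi * c * er c) := by
      rw [← h11]
      have := hqf c
      linarith
    have h13 : (a + b) * I ≤
        (2 * (Real.exp (-(Real.pi * c ^ 2)) + 2 * Real.pi * c * er c)) * I :=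
      mul_le_mul_of_nonneg_right h12 hIp.le
    have h14 : (a + b) * I = w₀ + w₁ := by rw [add_mul, haI, hbI]
    have h15 : 2 * Real.pi * c * I = w₁ - w₀ := by rw [← hba, sub_mul, haI, hbI]
    rw [h14] at h13
    have h16 : (2 * (Real.exp (-(Real.pi * c ^ 2)) + 2 * Real.pi * c * er c)) * I =
        2 * (Real.exp (-(Real.pi * c ^ 2)) * I + er c * (w₁ - w₀)) := by
      rw [← h15]; ring
    rw [h16] at h13
    linarith

end Pool.Agent.H67.TS
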