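import Pool.Agent.H73.TS.Targets

/-! TN: transport in every dimension (helper67) -/

namespace Pool.Agent.H67.TS
open Pool.Agent.H73.TS

theorem tn (hTZ : T_TZ) (hTS : T_TS) : T_TN := by
  intro n
  induction n with
  | zero => exact hTZ
  | succ k ih => exact hTS k ih

end Pool.Agent.H67.TS
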